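import Mathlib

/-!
# Vanishing above the dimension: the abstract bootstrap

A cochain complex `T 0 → T 1 → …` with subgroups `N k A` of the cochains which vanish near the
subset `A` of a compact space.  If the classes of positive degree vanish near every point (also
relative to closed sets), then the relative classes of degree `> m` vanish on every closed set on
which `m` continuous functions separate the points, and on all finite unions of such sets.
-/

set_option autoImplicit false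

namespace Pool.Agent.P8H85.VAN

open Set Topology

universe u v

/-- A cochain complex with supports on `X`. -/
structure SC (X : Type u) [TopologicalSpace X] where
  T : ℕ → Type v
  [grp : ∀ k, AddCommGroup (T k)]
  d : ∀ k, T k →+ T (k + 1)
  N : ∀ k, Set X → AddSubgroup (T k)
  dd : ∀ k c, d (k + 1) (d k c) = 0
  d_N : ∀ k A c, c ∈ N k A → d k c ∈ N (k + 1) A
  mono : ∀ k A B, A ⊆ B → N k B ≤ N k A
  union : ∀ k A B c, c ∈ N k A → c ∈ N k B → c ∈ N k (A ∪ B)
  inter : ∀ k A B, IsClosed A → IsClosed B → ∀ c, c ∈ N k (A ∩ B) →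
    ∃ c₁ ∈ N k A, ∃ c₂ ∈ N k B, c = c₁ + c₂
  nhd : ∀ k A c, c ∈ N k A → ∃ U, IsOpen U ∧ A ⊆ U ∧ c ∈ N k U
  empty : ∀ k c, c ∈ N k ∅

attribute [instance] SC.grp

namespace SC

variable {X : Type u} [TopologicalSpace X] (C : SC.{u, v} X)

/-- `c` is exact near `A`, relative to `L` -/
def Ex (k : ℕ) (L A : Set X) (c : C.T (k + 1)) : Prop :=
  ∃ b ∈ C.N k L, c - C.d k b ∈ C.N (k + 1) A

/-- the vanishing of the classes of degree `k + 1` of `A` relative to `L` -/
def Van (k : ℕ) (L A : Set X) : Prop :=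
  ∀ c : C.T (k + 1), c ∈ C.N (k + 1) L → C.d (k + 1) c ∈ C.N (k + 2) A → C.Ex k L A c

/-- the vanishing of all relative classes of degree `> m` on all closed subsets of `K` -/
def Good (m : ℕ) (K : Set X) : Prop :=
  ∀ A ⊆ K, IsClosed A → ∀ L, IsClosed L → ∀ k, m ≤ k → C.Van k L A

theorem Ex.mono' {k : ℕ} {L A A' : Set X} {c : C.T (k + 1)} (h : C.Ex k L A c) (hA : A' ⊆ A) :
    C.Ex k L A' c := by
  obtain ⟨b, hb, h⟩ := h
  exact ⟨b, hb, C.mono _ _ _ hA h⟩

theorem ex_empty {k : ℕ} {L : Set X} {c : C.T (k + 1)} : C.Ex k L ∅ c :=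
  ⟨0, zero_mem _, C.empty _ _⟩

/-- Mayer-Vietoris -/
theorem cut {j : ℕ} {L A B : Set X} (hL : IsClosed L) (hA : IsClosed A) (hB : IsClosed B)
    (hV : C.Van j L (A ∩ B)) {c : C.T (j + 1 + 1)} (h1 : C.Ex (j + 1) L A c)
    (h2 : C.Ex (j + 1) L B c) : C.Ex (j + 1) L (A ∪ B) c := by
  obtain ⟨b1, hb1, h1⟩ := h1
  obtain ⟨b2, hb2, h2⟩ := h2
  have h3 : C.d (j + 1) (b1 - b2) ∈ C.N (j + 2) (A ∩ B) := by
    have e : C.d (j + 1) (b1 - b2) = (c - C.d (j + 1) b2) - (c - C.d (j + 1) b1) := by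
      rw [map_sub]; abel
    rw [e]
    exact sub_mem (C.mono _ _ _ inter_subset_right h2) (C.mono _ _ _ inter_subset_left h1)
  obtain ⟨e, he, h4⟩ := hV (b1 - b2) (sub_mem hb1 hb2) h3
  have h5 : b1 - b2 - C.d j e ∈ C.N (j + 1) ((A ∪ L) ∩ (B ∪ L)) := by
    rw [← inter_union_distrib_right]
    exact C.union _ _ _ _ h4 (sub_mem (sub_mem hb1 hb2) (C.d_N _ _ _ he))
  obtain ⟨ν1, hν1, ν2, hν2, h6⟩ := C.inter _ _ _ (hA.union hL) (hB.union hL) _ h5
  have e2 : b2 + ν2 = b1 - C.d j e - ν1 := by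
    have h7 : ν2 = b1 - b2 - C.d j e - ν1 := by rw [h6]; abel
    rw [h7]; abel
  refine ⟨b2 + ν2, add_mem hb2 (C.mono _ _ _ subset_union_right hν2), C.union _ _ _ _ ?_ ?_⟩
  · have e3 : c - C.d (j + 1) (b2 + ν2) = (c - C.d (j + 1) b1) + C.d (j + 1) ν1 := by
      rw [e2, map_sub, map_sub, C.dd]
      abel
    rw [e3]
    exact add_mem h1 (C.d_N _ _ _ (C.mono _ _ _ subset_union_left hν1))
  · have e3 : c - C.d (j + 1) (b2 + ν2) = (c - C.d (j + 1) b2) - C.d (j + 1) ν2 := by
      rw [map_add]; abel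
    rw [e3]
    exact sub_mem h2 (C.d_N _ _ _ (C.mono _ _ _ subset_union_left hν2))

/-- minimal closed sets on which a class does not vanish -/
theorem exists_min [CompactSpace X] {k : ℕ} {L K : Set X} (hK : IsClosed K) {c : C.T (k + 1)}
    (h : ¬ C.Ex k L K c) : ∃ K0 ⊆ K, IsClosed K0 ∧ ¬ C.Ex k L K0 c ∧
      ∀ K' ⊆ K0, IsClosed K' → K' ≠ K0 → C.Ex k L K' c := by
  classical
  obtain ⟨K0, hK0, hmin⟩ := zorn_superset_nonempty {A : Set X | IsClosed A ∧ ¬ C.Ex k L A c} (by
    intro ch hcS hc hne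
    refine ⟨⋂₀ ch, ⟨isClosed_sInter fun s hs => (hcS hs).1, ?_⟩, fun s hs => sInter_subset_of_mem hs⟩
    rintro ⟨b, hb, hψ⟩
    obtain ⟨U, hU, hLU, hB⟩ := C.nhd _ _ _ hψ
    have : Nonempty ch := hne.to_subtype
    obtain ⟨i, hi⟩ := exists_subset_nhds_of_compactSpace (V := fun s : ch => (s : Set X)) (U := U)
      (by
        intro a b
        rcases hc.total a.2 b.2 with h1 | h1
        · exact ⟨a, subset_rfl, h1⟩
        · exact ⟨b, h1, subset_rfl⟩)
      (fun s => (hcS s.2).1)
      (by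
        intro x hx
        apply hU.mem_nhds
        apply hLU
        rw [mem_sInter]
        intro t ht
        exact mem_iInter.mp hx ⟨t, ht⟩)
    exact (hcS i.2).2 ⟨b, hb, C.mono _ _ _ hi hB⟩) K ⟨hK, h⟩
  refine ⟨K0, hK0, hmin.prop.1, hmin.prop.2, ?_⟩
  intro K' hK' hc' hne
  by_contra hex
  exact hne (subset_antisymm hK' (hmin.2 ⟨hc', hex⟩ hK'))

theorem good_empty {m : ℕ} : C.Good m ∅ := by
  intro A hA _ L _ k _ c _ _
  have : A = ∅ := subset_empty_iff.1 hA
  subst this
  exact C.ex_empty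

/-- finite unions -/
theorem good_union {m : ℕ} {A B : Set X} (hA : IsClosed A) (hB : IsClosed B) (h1 : C.Good m A)
    (h2 : C.Good m B) : C.Good m (A ∪ B) := by
  intro K hK hc L hL k hk c hcL hdc
  have e : K = (K ∩ A) ∪ (K ∩ B) := by
    rw [← inter_union_distrib_left, inter_eq_left.2 hK]
  obtain ⟨b1, hb1, h3⟩ := h1 (K ∩ A) inter_subset_right (hc.inter hA) L hL k hk c hcL
    (C.mono _ _ _ inter_subset_left hdc)
  have h4 : c - C.d k b1 ∈ C.N (k + 1) (L ∪ (K ∩ A)) :=
    C.union _ _ _ _ (sub_mem hcL (C.d_N _ _ _ hb1)) h3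
  obtain ⟨b2, hb2, h5⟩ := h2 (K ∩ B) inter_subset_right (hc.inter hB) (L ∪ (K ∩ A))
    (hL.union (hc.inter hA)) k hk (c - C.d k b1) h4 (by
      rw [map_sub, C.dd, sub_zero]
      exact C.mono _ _ _ inter_subset_left hdc)
  refine ⟨b1 + b2, add_mem hb1 (C.mono _ _ _ subset_union_left hb2), ?_⟩
  have e3 : c - C.d k (b1 + b2) = c - C.d k b1 - C.d k b2 := by
    rw [map_add]; abel
  rw [e3, e]
  refine C.union _ _ _ _ ?_ h5
  exact sub_mem h3 (C.d_N _ _ _ (C.mono _ _ _ subset_union_right hb2))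

/-- closed sets on which `m` continuous functions separate the points -/
theorem good_coord [CompactSpace X] [T2Space X] {ι : Type*} [DecidableEq ι]
    (f : ι → X → ℝ) (hpt : ∀ (x : X) (k : ℕ) (L : Set X), IsClosed L → C.Van k L {x}) (m : ℕ) :
    ∀ (s : Finset ι), s.card ≤ m → ∀ K : Set X, IsClosed K → (∀ i ∈ s, ContinuousOn (f i) K) →
      (∀ x ∈ K, ∀ y ∈ K, (∀ i ∈ s, f i x = f i y) → x = y) → C.Good m K := by
  have hcl : ∀ (i : ι) (t : ℝ) (K : Set X), IsClosed K → ContinuousOn (f i) K →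
      IsClosed {z | z ∈ K ∧ f i z ≤ t} ∧ IsClosed {z | z ∈ K ∧ t ≤ f i z} := by
    intro i t K hK hf
    constructor
    · have : {z | z ∈ K ∧ f i z ≤ t} = K ∩ f i ⁻¹' (Iic t) := rfl
      rw [this]
      exact hf.preimage_isClosed_of_isClosed hK isClosed_Iic
    · have : {z | z ∈ K ∧ t ≤ f i z} = K ∩ f i ⁻¹' (Ici t) := rfl
      rw [this]
      exact hf.preimage_isClosed_of_isClosed hK isClosed_Ici
  induction m with
  | zero =>
    intro s hs K hK hf hsep A hAK hA L hL k hk c hcL hdc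
    have h0 : s = ∅ := Finset.card_eq_zero.1 (Nat.le_zero.1 hs)
    rcases A.eq_empty_or_nonempty with rfl | ⟨x, hx⟩
    · exact C.ex_empty
    · have e : A = {x} := by
        ext z
        refine ⟨fun hz => hsep z (hAK hz) x (hAK hx) ?_, fun hz => ?_⟩
        · intro i hi
          rw [h0] at hi
          exact absurd hi (Finset.notMem_empty _)
        · rw [mem_singleton_iff.1 hz]; exact hx
      subst e
      exact hpt x k L hL c hcL hdc
  | succ m ih =>
    intro s hs K hK hf hsep A hAK hA L hL k hk c hcL hdc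
    obtain ⟨j, rfl⟩ : ∃ j, k = j + 1 := ⟨k - 1, by omega⟩
    by_contra hne
    obtain ⟨K0, hK0, hc0, hn0, hmin⟩ := C.exists_min hA hne
    rcases K0.eq_empty_or_nonempty with rfl | ⟨x, hx⟩
    · exact hn0 C.ex_empty
    by_cases h2 : ∃ y ∈ K0, x ≠ y
    · obtain ⟨y, hy, hxy⟩ := h2
      have hgood : ∀ (i : ι), i ∈ s → ∀ t : ℝ, ∀ L' : Set X, IsClosed L' →
          (∀ z ∈ L', z ∈ K ∧ f i z = t) → C.Good m L' := by
        intro i hi t L' hL' hLt
        refine ih (s.erase i) ?_ L' hL' ?_ ?_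
        · rw [Finset.card_erase_of_mem hi]; omega
        · intro j hj
          exact (hf j (Finset.mem_of_mem_erase hj)).mono (fun z hz => (hLt z hz).1)
        · intro x hx y hy hxy
          refine hsep x (hLt x hx).1 y (hLt y hy).1 (fun j hj => ?_)
          by_cases hji : j = i
          · rw [hji, (hLt x hx).2, (hLt y hy).2]
          · exact hxy j (Finset.mem_erase.2 ⟨hji, hj⟩)
      have hex : ∃ i ∈ s, f i x ≠ f i y := by
        by_contra hcon
        push Not at hcon
        exact hxy (hsep x (hAK (hK0 hx)) y (hAK (hK0 hy)) hcon)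
      obtain ⟨i, hi, hne'⟩ := hex
      have hf0 : ContinuousOn (f i) K0 := (hf i hi).mono (hK0.trans hAK)
      -- a value between
      have hcase : ∃ t : ℝ, ({z | z ∈ K0 ∧ f i z ≤ t} ≠ K0) ∧ ({z | z ∈ K0 ∧ t ≤ f i z} ≠ K0) := by
        rcases lt_or_gt_of_ne hne' with hlt | hlt
        · obtain ⟨t, ht1, ht2⟩ := exists_between hlt
          refine ⟨t, fun h => ?_, fun h => ?_⟩
          · have : y ∈ {z | z ∈ K0 ∧ f i z ≤ t} := by rw [h]; exact hy
            exact absurd this.2 (not_le.2 ht2)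
          · have : x ∈ {z | z ∈ K0 ∧ t ≤ f i z} := by rw [h]; exact hx
            exact absurd this.2 (not_le.2 ht1)
        · obtain ⟨t, ht1, ht2⟩ := exists_between hlt
          refine ⟨t, fun h => ?_, fun h => ?_⟩
          · have : x ∈ {z | z ∈ K0 ∧ f i z ≤ t} := by rw [h]; exact hx
            exact absurd this.2 (not_le.2 ht2)
          · have : y ∈ {z | z ∈ K0 ∧ t ≤ f i z} := by rw [h]; exact hy
            exact absurd this.2 (not_le.2 ht1)
      obtain ⟨t, ht1, ht2⟩ := hcase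
      obtain ⟨c1, c2⟩ := hcl i t K0 hc0 hf0
      have e : K0 = {z | z ∈ K0 ∧ f i z ≤ t} ∪ {z | z ∈ K0 ∧ t ≤ f i z} := by
        ext z
        constructor
        · intro hz
          rcases le_total (f i z) t with h | h
          · exact Or.inl ⟨hz, h⟩
          · exact Or.inr ⟨hz, h⟩
        · rintro (hz | hz)
          · exact hz.1
          · exact hz.1
      apply hn0
      rw [e]
      refine C.cut hL c1 c2 ?_ (hmin _ (fun z hz => hz.1) c1 ht1) (hmin _ (fun z hz => hz.1) c2 ht2)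
      refine hgood i hi t _ (c1.inter c2) ?_ _ subset_rfl (c1.inter c2) L hL j (by omega)
      rintro z ⟨h1, h2⟩
      exact ⟨hAK (hK0 h1.1), le_antisymm h1.2 h2.2⟩
    · have e : K0 = {x} := by
        ext z
        constructor
        · intro hz
          by_contra hzx
          exact h2 ⟨z, hz, fun e => hzx (e ▸ rfl)⟩
        · intro hz
          rw [mem_singleton_iff.1 hz]
          exact hx
      apply hn0
      rw [e]
      exact hpt x _ L hL c hcL (C.mono _ _ _ (singleton_subset_iff.2 (hK0 hx)) hdc)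

/-- the bootstrap principle for compact locally Euclidean spaces -/
theorem boot [CompactSpace X] [T2Space X] {E : Type*} [NormedAddCommGroup E] [NormedSpace ℝ E]
    [FiniteDimensional ℝ E] [ChartedSpace E X]
    (hpt : ∀ (x : X) (k : ℕ) (L : Set X), IsClosed L → C.Van k L {x}) :
    C.Good (Module.finrank ℝ E) univ := by
  classical
  let bs := Module.finBasis ℝ E
  have hloc : ∀ x : X, ∃ K : Set X, K ∈ 𝓝 x ∧ IsClosed K ∧ C.Good (Module.finrank ℝ E) K := by
    intro x
    have hsrc : (chartAt E x).source ∈ 𝓝 x :=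
      (chartAt E x).open_source.mem_nhds (mem_chart_source E x)
    obtain ⟨K, hK, hKc, hKs⟩ := exists_mem_nhds_isClosed_subset hsrc
    refine ⟨K, hK, hKc, ?_⟩
    refine C.good_coord (fun (i : Fin (Module.finrank ℝ E)) y => bs.coord i (chartAt E x y)) hpt _
      Finset.univ (by simp) K hKc ?_ ?_
    · intro i _
      exact (LinearMap.continuous_of_finiteDimensional (bs.coord i)).comp_continuousOn
        ((chartAt E x).continuousOn.mono hKs)
    · intro y hy z hz hyz
      apply (chartAt E x).injOn (hKs hy) (hKs hz)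
      exact bs.ext_elem fun i => hyz i (Finset.mem_univ i)
  choose K hK hKc hKg using hloc
  obtain ⟨t, ht⟩ := CompactSpace.elim_nhds_subcover K hK
  have hind : ∀ t : Finset X, IsClosed (⋃ x ∈ t, K x) ∧
      C.Good (Module.finrank ℝ E) (⋃ x ∈ t, K x) := by
    intro t
    induction t using Finset.induction_on with
    | empty => simpa using C.good_empty
    | insert a s _ ih =>
      rw [Finset.set_biUnion_insert]
      exact ⟨(hKc a).union ih.1, C.good_union (hKc a) ih.1 (hKg a) ih.2⟩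
  have h := (hind t).2
  rw [ht] at h
  exact h

end SC

end Pool.Agent.P8H85.VAN
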