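import Pool.Agent.P8H85.VAN.Abs
import Pool.Agent.Helper381.Cone
import Pool.Agent.P8H83.ZE.StmV

/-!
# The singular cohomology of a compact manifold vanishes above the dimension
-/

set_option autoImplicit false

namespace Pool.Agent.P8H85.VAN

open Set Topology Pool.Agent.Helper381

universe u v w

section Sing

variable (K : Type v) [CommRing K] (X : Type u) [TopologicalSpace X]

/-- cochains which vanish on all small simplices near every point of `A` -/
def NN (k : ℕ) (A : Set X) : Submodule K (Sing X k → K) where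
  carrier := {c | ∀ x ∈ A, ∃ U, IsOpen U ∧ x ∈ U ∧ ∀ s : Sing X k, range s ⊆ U → c s = 0}
  zero_mem' := fun x _ => ⟨univ, isOpen_univ, mem_univ _, fun _ _ => rfl⟩
  add_mem' := by
    intro a b ha hb x hx
    obtain ⟨U, hU, hxU, h1⟩ := ha x hx
    obtain ⟨V, hV, hxV, h2⟩ := hb x hx
    refine ⟨U ∩ V, hU.inter hV, ⟨hxU, hxV⟩, fun s hs => ?_⟩
    rw [Pi.add_apply, h1 s (hs.trans inter_subset_left), h2 s (hs.trans inter_subset_right),
      add_zero]
  smul_mem' := by
    intro r a ha x hx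
    obtain ⟨U, hU, hxU, h1⟩ := ha x hx
    refine ⟨U, hU, hxU, fun s hs => ?_⟩
    rw [Pi.smul_apply, h1 s hs, smul_zero]

variable {K X}

theorem mem_NN {k : ℕ} {A : Set X} {c : Sing X k → K} : c ∈ NN K X k A ↔
    ∀ x ∈ A, ∃ U, IsOpen U ∧ x ∈ U ∧ ∀ s : Sing X k, range s ⊆ U → c s = 0 := Iff.rfl

theorem NN_mono {k : ℕ} {A B : Set X} (h : A ⊆ B) : NN K X k B ≤ NN K X k A :=
  fun _ hc x hx => hc x (h hx)

theorem altd_loc {k : ℕ} (c : Sing X k → K) (U : Set X)
    (h : ∀ s : Sing X k, range s ⊆ U → c s = 0) (s : Sing X (k + 1)) (hs : range s ⊆ U) :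
    altd K (sface (X := X)) k c s = 0 := by
  rw [altd_apply]
  refine Finset.sum_eq_zero fun i _ => ?_
  rw [h _ ((range_sface k i s).trans hs), mul_zero]

/-- splitting of a cochain which vanishes near `A ∩ B` -/
theorem NN_split [NormalSpace X] {k : ℕ} {A B : Set X} (hA : IsClosed A) (hB : IsClosed B)
    {c : Sing X k → K} {W : Set X} (hW : IsOpen W) (hAB : A ∩ B ⊆ W) (hc : c ∈ NN K X k W) :
    ∃ c₁ ∈ NN K X k A, ∃ c₂ ∈ NN K X k B, c = c₁ + c₂ := by
  classical
  obtain ⟨G, H, hG, hH, hAG, hBH, hd⟩ := normal_separation (hA.sdiff hW) (hB.sdiff hW) (by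
    rw [Set.disjoint_left]
    rintro x ⟨h1, h2⟩ ⟨h3, _⟩
    exact h2 (hAB ⟨h1, h3⟩))
  have hv : ∀ s : Sing X k, s (vert k 0) ∈ range s := fun s => ⟨_, rfl⟩
  refine ⟨fun s => if s (vert k 0) ∈ H then c s else 0, ?_,
    fun s => if s (vert k 0) ∈ H then 0 else c s, ?_, ?_⟩
  · intro x hx
    by_cases hxW : x ∈ W
    · obtain ⟨U, hU, hxU, h⟩ := hc x hxW
      refine ⟨U, hU, hxU, fun s hs => ?_⟩
      change (if s (vert k 0) ∈ H then c s else 0) = 0
      rw [h s hs, ite_self]
    · refine ⟨G, hG, hAG ⟨hx, hxW⟩, fun s hs => ?_⟩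
      have h3 : s (vert k 0) ∉ H := fun h4 => disjoint_left.mp hd (hs (hv s)) h4
      change (if s (vert k 0) ∈ H then c s else 0) = 0
      rw [if_neg h3]
  · intro x hx
    by_cases hxW : x ∈ W
    · obtain ⟨U, hU, hxU, h⟩ := hc x hxW
      refine ⟨U, hU, hxU, fun s hs => ?_⟩
      change (if s (vert k 0) ∈ H then 0 else c s) = 0
      rw [h s hs, ite_self]
    · refine ⟨H, hH, hBH ⟨hx, hxW⟩, fun s hs => ?_⟩
      have h3 : s (vert k 0) ∈ H := hs (hv s)
      change (if s (vert k 0) ∈ H then 0 else c s) = 0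
      rw [if_pos h3]
  · funext s
    change c s = (if s (vert k 0) ∈ H then c s else 0) + (if s (vert k 0) ∈ H then 0 else c s)
    by_cases h3 : s (vert k 0) ∈ H
    · rw [if_pos h3, if_pos h3, add_zero]
    · rw [if_neg h3, if_neg h3, zero_add]

theorem NN_nhd {k : ℕ} {A : Set X} {c : Sing X k → K} (h : c ∈ NN K X k A) :
    ∃ U, IsOpen U ∧ A ⊆ U ∧ c ∈ NN K X k U := by
  refine ⟨⋃ (V : Set X) (_ : IsOpen V ∧ ∀ s : Sing X k, range s ⊆ V → c s = 0), V, ?_, ?_, ?_⟩
  · exact isOpen_iUnion fun V => isOpen_iUnion fun hV => hV.1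
  · intro x hx
    obtain ⟨U, hU, hxU, h1⟩ := h x hx
    simp only [mem_iUnion]
    exact ⟨U, ⟨hU, h1⟩, hxU⟩
  · intro x hx
    simp only [mem_iUnion] at hx
    obtain ⟨V, ⟨hV, h1⟩, hxV⟩ := hx
    exact ⟨V, hV, hxV, h1⟩

variable (K X)

/-- the complex of singular cochains -/
noncomputable def sc [NormalSpace X] : SC X where
  T k := Sing X k → K
  d k := (altd K (sface (X := X)) k).toAddMonoidHom
  N k A := (NN K X k A).toAddSubgroup
  dd k c := altd_altd (sface (X := X)) (fun n i j σ h => sface_sface n i j σ h) k c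
  d_N := by
    intro k A c hc x hx
    obtain ⟨U, hU, hxU, h⟩ := hc x hx
    exact ⟨U, hU, hxU, altd_loc c U h⟩
  mono k A B h := fun c hc => NN_mono h hc
  union := by
    rintro k A B c h1 h2 x (hx | hx)
    · exact h1 x hx
    · exact h2 x hx
  inter := by
    intro k A B hA hB c hc
    obtain ⟨W, hW, hAB, hcW⟩ := NN_nhd hc
    exact NN_split hA hB hW hAB hcW
  nhd k A c hc := NN_nhd hc
  empty k c := fun x hx => absurd hx (notMem_empty x)

variable {K X}

/-- the vanishing at a point with small contractible neighbourhoods -/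
theorem van_pt [NormalSpace X] (x : X)
    (hx : ∀ U : Set X, IsOpen U → x ∈ U → ∃ C ∈ 𝓝 x, IsClosed C ∧ C ⊆ U ∧ ConeData C)
    (k : ℕ) (L : Set X) (hL : IsClosed L) : (sc K X).Van k L {x} := by
  classical
  intro c hcL hdc
  by_cases hxL : x ∈ L
  · refine ⟨0, zero_mem _, ?_⟩
    rw [map_zero, sub_zero]
    exact (sc K X).mono _ _ _ (singleton_subset_iff.2 hxL) hcL
  obtain ⟨U, hU, hxU, hUd⟩ := hdc x rfl
  obtain ⟨C, hC, hCc, hCU, pt, J, -, hJ1, hJ2, -⟩ := hx (U ∩ Lᶜ) (hU.inter hL.isOpen_compl)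
    ⟨hxU, hxL⟩
  let c' : Sing X (k + 1) → K := c
  refine ⟨fun s : Sing X k => if range s ⊆ C then c' (J k s) else 0, ?_, ?_⟩
  · intro y hy
    refine ⟨Cᶜ, hCc.isOpen_compl, fun h => (hCU h).2 hy, fun s hs => ?_⟩
    have h1 : ¬ range s ⊆ C := fun h => hs ⟨vert k 0, rfl⟩ (h ⟨vert k 0, rfl⟩)
    exact if_neg h1
  · intro y hy
    rw [mem_singleton_iff.1 hy]
    refine ⟨interior C, isOpen_interior, mem_interior_iff_mem_nhds.2 hC, fun s hs => ?_⟩
    have hsC : range s ⊆ C := hs.trans interior_subset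
    have h0 : altd K (sface (X := X)) (k + 1) c' (J (k + 1) s) = 0 :=
      hUd _ (((hJ1 (k + 1) s hsC).1.trans hCU).trans inter_subset_left)
    rw [altd_apply, Fin.sum_univ_succ, (hJ1 (k + 1) s hsC).2] at h0
    have h1 : altd K (sface (X := X)) k (fun s : Sing X k => if range s ⊆ C then c' (J k s) else 0)
        s = ∑ i : Fin (k + 2), (-1 : K) ^ (i : ℕ) * c' (sface (k + 1) i.succ (J (k + 1) s)) := by
      rw [altd_apply]
      refine Finset.sum_congr rfl fun i _ => ?_
      rw [if_pos ((range_sface k i s).trans hsC), hJ2 k s hsC i]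
    change c' s - altd K (sface (X := X)) k
      (fun s : Sing X k => if range s ⊆ C then c' (J k s) else 0) s = 0
    rw [h1]
    have h2 : ∑ i : Fin (k + 2), (-1 : K) ^ ((i.succ : Fin (k + 3)) : ℕ) *
        c' (sface (k + 1) i.succ (J (k + 1) s)) =
        - ∑ i : Fin (k + 2), (-1 : K) ^ (i : ℕ) * c' (sface (k + 1) i.succ (J (k + 1) s)) := by
      rw [← Finset.sum_neg_distrib]
      refine Finset.sum_congr rfl fun i _ => ?_
      rw [Fin.val_succ, pow_succ]
      ring
    rw [h2] at h0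
    simp only [Fin.val_zero, pow_zero, one_mul] at h0
    rw [sub_eq_add_neg]
    exact h0

/-- locally zero cocycles of positive degree are coboundaries -/
theorem locally_zero {n : ℕ} (c : Sing X (n + 1) → K) (hc : c ∈ NN K X (n + 1) univ)
    (hd : altd K (sface (X := X)) (n + 1) c = 0) :
    ∃ b : Sing X n → K, altd K (sface (X := X)) n b = c := by
  let 𝒞 : Set (Set X) := {U | IsOpen U ∧ ∀ s : Sing X (n + 1), range s ⊆ U → c s = 0}
  have hopen : ∀ C ∈ 𝒞, IsOpen C := fun C hC => hC.1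
  have hcov : ∀ x : X, ∃ C ∈ 𝒞, x ∈ C := by
    intro x
    obtain ⟨U, hU, hxU, h⟩ := hc x (mem_univ x)
    exact ⟨U, ⟨hU, h⟩, hxU⟩
  refine ⟨fun σ => evc c (DD 𝒞 n (Finsupp.single σ 1)), ?_⟩
  funext σ
  rw [altd_eq_ev]
  have h1 : Finsupp.linearCombination ℤ (fun σ => evc c (DD 𝒞 n (Finsupp.single σ 1))) =
      (evc c).comp (DD 𝒞 n) := by
    apply Finsupp.lhom_ext'
    intro σ
    apply LinearMap.ext_ring
    simp only [LinearMap.comp_apply, Finsupp.lsingle_apply, Finsupp.linearCombination_single,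
      one_smul]
  rw [h1, LinearMap.comp_apply]
  have h2 : c σ = evc c (rho 𝒞 (n + 1) (Finsupp.single σ 1)) +
      evc c (sbd X (n + 1) (DD 𝒞 (n + 1) (Finsupp.single σ 1))) +
      evc c (DD 𝒞 n (sbd X n (Finsupp.single σ 1))) := by
    rw [rho_succ, map_sub, map_sub, evc_single]
    ring
  rw [h2]
  have h3 : evc c (sbd X (n + 1) (DD 𝒞 (n + 1) (Finsupp.single σ 1))) = 0 := by
    rw [← ev_altd, hd]
    simp
  have h4 : evc c (rho 𝒞 (n + 1) (Finsupp.single σ 1)) = 0 := by
    have h5 := evc_congr (smallSet 𝒞 (n + 1)) c 0 (by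
      rintro τ ⟨C, hC, hτ⟩
      exact hC.2 τ hτ) _ (rho_small 𝒞 hopen hcov (n + 1) (Finsupp.single σ 1))
    rw [h5]
    simp [evc]
  rw [h3, h4, zero_add, zero_add]

end Sing

/-- small contractible neighbourhoods in a manifold -/
theorem cone_nhd {E : Type v} [NormedAddCommGroup E] [NormedSpace ℝ E] [FiniteDimensional ℝ E]
    {M : Type u} [TopologicalSpace M] [ChartedSpace E M] [T2Space M] (x : M) (U : Set M)
    (hU : IsOpen U) (hxU : x ∈ U) : ∃ C ∈ 𝓝 x, IsClosed C ∧ C ⊆ U ∧ ConeData C := by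
  have : ProperSpace E := FiniteDimensional.proper ℝ E
  set φ := chartAt E x with hφ
  have hxs : x ∈ φ.source := mem_chart_source E x
  have h1 : φ '' (φ.source ∩ U) ∈ 𝓝 (φ x) :=
    (φ.isOpen_image_source_inter hU).mem_nhds ⟨x, ⟨hxs, hxU⟩, rfl⟩
  obtain ⟨r, hr, hball⟩ := Metric.nhds_basis_closedBall.mem_iff.1 h1
  set B : Set E := Metric.closedBall (φ x) r with hB
  have hBt : B ⊆ φ.target := by
    intro z hz
    obtain ⟨y, ⟨hy, _⟩, rfl⟩ := hball hz
    exact φ.map_source hy
  have hBU : ∀ z ∈ B, φ.symm z ∈ U := by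
    intro z hz
    obtain ⟨y, ⟨hy, hyU⟩, rfl⟩ := hball hz
    rwa [φ.left_inv hy]
  set C : Set M := φ.symm '' B with hC
  have hCs : C ⊆ φ.source := by
    rintro _ ⟨z, hz, rfl⟩
    exact φ.map_target (hBt hz)
  have hCcomp : IsCompact C :=
    (isCompact_closedBall _ _).image_of_continuousOn (φ.continuousOn_symm.mono hBt)
  have hφC : ∀ y ∈ C, φ y ∈ B := by
    rintro _ ⟨z, hz, rfl⟩
    rwa [φ.right_inv (hBt hz)]
  have hxC : x ∈ C := ⟨φ x, Metric.mem_closedBall_self hr.le, φ.left_inv hxs⟩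
  refine ⟨C, ?_, hCcomp.isClosed, ?_, ?_⟩
  · have h2 : φ.source ∩ φ ⁻¹' (Metric.ball (φ x) r) ∈ 𝓝 x :=
      (φ.isOpen_inter_preimage Metric.isOpen_ball).mem_nhds ⟨hxs, Metric.mem_ball_self hr⟩
    refine Filter.mem_of_superset h2 ?_
    rintro y ⟨hy, hyB⟩
    exact ⟨φ y, Metric.ball_subset_closedBall hyB, φ.left_inv hy⟩
  · rintro _ ⟨z, hz, rfl⟩
    exact hBU z hz
  · have hconv : Convex ℝ B := convex_closedBall _ _
    have hV : ∀ (t : unitInterval) (y : C), (1 - t.1) • φ y.1 + t.1 • φ x ∈ B := fun t y =>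
      hconv (hφC _ y.2) (hφC _ hxC) (by linarith [t.2.2]) t.2.1 (by ring)
    have hmem : ∀ (t : unitInterval) (y : C), φ.symm ((1 - t.1) • φ y.1 + t.1 • φ x) ∈ C :=
      fun t y => ⟨_, hV t y, rfl⟩
    have hcont : Continuous (fun p : unitInterval × C =>
        (⟨φ.symm ((1 - p.1.1) • φ p.2.1 + p.1.1 • φ x), hmem p.1 p.2⟩ : C)) := by
      apply Continuous.subtype_mk
      have h1 : Continuous (fun y : C => φ y.1) :=
        φ.continuousOn.comp_continuous continuous_subtype_val (fun y => hCs y.2)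
      have h2 : Continuous (fun p : unitInterval × C =>
          (1 - p.1.1) • φ p.2.1 + p.1.1 • φ x) := by
        apply Continuous.add
        · apply Continuous.smul
          · exact continuous_const.sub (continuous_subtype_val.comp continuous_fst)
          · exact h1.comp continuous_snd
        · exact (continuous_subtype_val.comp continuous_fst).smul continuous_const
      exact φ.continuousOn_symm.comp_continuous h2 (fun p => hBt (hV p.1 p.2))
    let F' : ContinuousMap.Homotopy (ContinuousMap.id C) (ContinuousMap.const C ⟨x, hxC⟩) :=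
      { toFun := fun p => ⟨φ.symm ((1 - p.1.1) • φ p.2.1 + p.1.1 • φ x), hmem p.1 p.2⟩
        continuous_toFun := hcont
        map_zero_left := by
          intro y
          apply Subtype.ext
          change φ.symm ((1 - (0 : ℝ)) • φ y.1 + (0 : ℝ) • φ x) = y.1
          rw [sub_zero, one_smul, zero_smul, add_zero]
          exact φ.left_inv (hCs y.2)
        map_one_left := by
          intro y
          apply Subtype.ext
          change φ.symm ((1 - (1 : ℝ)) • φ y.1 + (1 : ℝ) • φ x) = x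
          rw [sub_self, one_smul, zero_smul, zero_add]
          exact φ.left_inv hxs }
    exact coneData_of_nullhomotopic C ⟨x, hxC⟩ F'

/-- **vanishing above the dimension**: every cocycle of degree `> dim M` on a compact manifold is a
coboundary, for every coefficient ring -/
theorem cocycle_bnd {E : Type v} [NormedAddCommGroup E] [NormedSpace ℝ E] [FiniteDimensional ℝ E]
    {M : Type u} [TopologicalSpace M] [ChartedSpace E M] [CompactSpace M] [T2Space M]
    {K : Type w} [CommRing K] {n : ℕ} (hn : Module.finrank ℝ E ≤ n) (c : Sing M (n + 1) → K)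
    (hc : altd K (sface (X := M)) (n + 1) c = 0) :
    ∃ b : Sing M n → K, altd K (sface (X := M)) n b = c := by
  have hgood := (sc K M).boot (E := E) (fun x k L hL => van_pt x
    (fun U hU hxU => cone_nhd (E := E) x U hU hxU) k L hL)
  obtain ⟨b1, -, h1⟩ := hgood univ subset_rfl isClosed_univ ∅ isClosed_empty n hn c
    ((sc K M).empty _ _) (by
      have : (sc K M).d (n + 1) c = 0 := hc
      rw [this]
      exact zero_mem _)
  let b1' : Sing M n → K := b1
  have h2 : altd K (sface (X := M)) (n + 1) (c - altd K (sface (X := M)) n b1') = 0 := by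
    rw [map_sub, hc, altd_altd (sface (X := M)) (fun n i j σ h => sface_sface n i j σ h), sub_zero]
  obtain ⟨b2, h3⟩ := locally_zero (c - altd K (sface (X := M)) n b1') h1 h2
  refine ⟨b1' + b2, ?_⟩
  rw [map_add, h3]
  abel

/-- the singular cohomology of a compact manifold is zero above the dimension -/
theorem subsingleton_coh (E : Type v) [NormedAddCommGroup E] [NormedSpace ℝ E]
    [FiniteDimensional ℝ E] (M : Type u) [TopologicalSpace M] [ChartedSpace E M] [CompactSpace M]
    [T2Space M] (K : Type w) [CommRing K] (n : ℕ) (hn : Module.finrank ℝ E < n) :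
    Subsingleton (SingularCohomology K M n) := by
  obtain ⟨m, rfl⟩ : ∃ m, n = m + 1 := ⟨n - 1, by omega⟩
  unfold SingularCohomology
  rw [Submodule.Quotient.subsingleton_iff, eq_top_iff]
  rintro ⟨c, hc⟩ _
  have hc' : altd K (sface (X := M)) (m + 1) c = 0 := hc
  obtain ⟨b, hb⟩ := cocycle_bnd (E := E) (by omega : Module.finrank ℝ E ≤ m) c hc'
  exact ⟨b, hb⟩

end Pool.Agent.P8H85.VAN

namespace Pool.Agent.P8H83.ZE

theorem van_proof : S_VAN := by
  intro E _ _ _ M _ _ _ _ K _ n hn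
  have := Pool.Agent.P8H85.VAN.subsingleton_coh E M K n hn
  exact Module.finrank_zero_of_subsingleton

end Pool.Agent.P8H83.ZE
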